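import Pool.Agent.Helper9.Trs.Base

/-!
# Another shape condition on `G_a^2 × G_m^2`

The points are `(a1,0;0,s1)`, `(0,b2;t2,0)`, `(a3,0;t3,s3)`; adapted from helper9's `shC`.
-/

set_option autoImplicit false

namespace Pool.Agent.Helper38.PiE

open MvPolynomial _root_.Trs _root_.Trs.H9

/-- the torus pattern -/
def T4 : Fin 4 → Bool := ![false, false, true, true]

theorem ex_sum_compl (I : Finset (Fin 4)) : ∑ i ∈ Iᶜ, ex T4 59 32 i =
    (if (0 : Fin 4) ∈ I then 0 else 59) + (if (1 : Fin 4) ∈ I then 0 else 59) + (if (2 : Fin 4) ∈ I then 0 else 32) +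
      (if (3 : Fin 4) ∈ I then 0 else 32) := by
  revert I
  decide +kernel

theorem shC2 (hJT : S_JorT) (hJD : S_JorD) (hA1 : S_Alg1) (hDel : S_Del) (hTor : S_Tor)
    (hAP : S_AddPair) (hTd : S_Tdim) (k1 k2 a1 b2 s1 t2 a3 t3 s3 : ℂ) (hk1 : k1 ≠ 0)
    (hk2 : k2 ≠ 0) (hα : ∀ g h : ℤ, (g : ℂ) * a1 + h * a3 = 0 → g = 0 ∧ h = 0) (hb2 : b2 ≠ 0)
    (ht2 : t2.re ≠ 0) (hs3 : s3.re ≠ 0) :
    Shape (m := 3) ![false, false, true, true]
      ![![a1, 0, 0, s1], ![0, b2, t2, 0], ![a3, 0, t3, s3]]
      ![1, 0, k1, 0] ![0, 1, 0, k2] 59 32 26 58 := by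
  intro p hp hpb hpk
  change ∃ (I : Finset (Fin 4)) (Ax : Finset (Fin 3)) (w : ℕ), Bas p I ∧ Free T4 ![![a1, 0, 0, s1], ![0, b2, t2, 0], ![a3, 0, t3, s3]] p Ax ∧
    Wt T4 ![1, 0, k1, 0] ![0, 1, 0, k2] p w ∧ w ≤ 2 ∧ ∑ i ∈ Iᶜ, ex T4 59 32 i < 26 * Ax.card + 58 * w
  replace hpk : p ≤ RingHom.ker (ev T4 0) := hpk
  set γ : Fin 3 → Fin 4 → ℂ := ![![a1, 0, 0, s1], ![0, b2, t2, 0], ![a3, 0, t3, s3]] with hγ
  have hpt : p ≠ ⊤ := ne_top_of_ker hpk
  have hgp : ∀ g : Fin 3 → ℤ, gp γ g = ![g 0 * a1 + g 2 * a3, g 1 * b2, g 1 * t2 + g 2 * t3, g 0 * s1 + g 2 * s3] := by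
    intro g
    funext i
    fin_cases i <;> simp [gp, hγ, Fin.sum_univ_three]
  obtain ⟨I0, -, hI0⟩ := H9.exists_bas (H9.ind_empty hpt)
  have hle : ∀ I, Ind p I → I.card ≤ I0.card := fun I hI => H9.card_le hTd hp hI hI0
  have hext : ∀ I, Ind p I → ∃ K, I ⊆ K ∧ Bas p K ∧ K.card = I0.card := fun I hI => exists_bas_card hTd hp hI hI0
  have hbas : ∀ I, Ind p I → I0.card ≤ I.card → Bas p I := fun I hI h => H9.bas_of_card hTd hp hI hI0 h
  -- algebraic coordinates
  have a0 : ¬ Ind p {0} → (X 0 : Rg 4) ∈ p := fun h => by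
    have := hA1 4 T4 p hp hpk 0 h
    simpa [T4] using this
  have a1' : ¬ Ind p {1} → (X 1 : Rg 4) ∈ p := fun h => by
    have := hA1 4 T4 p hp hpk 1 h
    simpa [T4] using this
  have a2 : ¬ Ind p {2} → (X 2 - 1 : Rg 4) ∈ p := fun h => by
    have := hA1 4 T4 p hp hpk 2 h
    simpa [T4] using this
  have a3' : ¬ Ind p {3} → (X 3 - 1 : Rg 4) ∈ p := fun h => by
    have := hA1 4 T4 p hp hpk 3 h
    simpa [T4] using this
  have t0 : T4 0 = false := rfl
  have t1 : T4 1 = false := rfl
  have tt2 : T4 2 = true := rfl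
  have tt3 : T4 3 = true := rfl
  -- transversality
  have w01 : (X 0 : Rg 4) ∈ p → (X 1 : Rg 4) ∈ p → Wt T4 ![1, 0, k1, 0] ![0, 1, 0, k2] p 2 := by
    intro h h'
    apply wt_two hpk h h'
    rw [dr_X_add t0, dr_X_add t0, dr_X_add t1, dr_X_add t1]
    simp
  have w23 : (X 2 - 1 : Rg 4) ∈ p → (X 3 - 1 : Rg 4) ∈ p → Wt T4 ![1, 0, k1, 0] ![0, 1, 0, k2] p 2 := by
    intro h h'
    apply wt_two hpk h h'
    rw [dr_X_tor tt2, dr_X_tor tt2, dr_X_tor tt3, dr_X_tor tt3]
    simp [hk1, hk2, tt2, tt3]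
  -- stable derivations
  have del : ∀ v : Fin 4 → ℂ, Dst T4 v p → v 2 = 0 → v 3 = 0 → ∀ i, T4 i = false → v i ≠ 0 →
      ∀ I : Finset (Fin 4), (∀ j ∈ I, v j = 0) → Ind p I → Ind p (insert i I) := by
    intro v hv h2 h3 i hi hvi I hI hInd
    refine hDel 4 T4 p v hv ?_ i hi hvi I hI hInd
    intro j hj
    fin_cases j
    · exact absurd hj (by decide)
    · exact absurd hj (by decide)
    · exact h2
    · exact h3
  -- the first derivation, multiplicative part
  have tor2 : Dst T4 ![1, 0, k1, 0] p → ∀ I : Finset (Fin 4), (2 : Fin 4) ∉ I → Ind p I →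
      Ind p (I ∪ {2}) := by
    intro hd I hI hInd
    obtain ⟨-, f1⟩ := hJD 4 T4 p _ hd
    apply hTor 4 T4 p hp hpk _ f1 {2} _ _ _ I (by simpa using hI) hInd
    · intro j hj; rw [Finset.mem_singleton] at hj; subst hj; rfl
    · intro j hj
      fin_cases j
      · simp [mulPart, T4]
      · simp [mulPart, T4]
      · exact absurd (Finset.mem_singleton_self _) hj
      · simp [mulPart, T4]
    · intro g hg j hj
      rw [Finset.mem_singleton] at hj
      subst hj
      simp [mulPart, T4, hk1] at hg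
      exact hg
  have wt1 : Wt T4 ![1, 0, k1, 0] ![0, 1, 0, k2] p 1 := by
    by_contra hno
    obtain ⟨d1, d2⟩ := not_wt_one hno
    obtain ⟨e1, f1⟩ := hJD 4 T4 p _ d1
    obtain ⟨e2, f2⟩ := hJD 4 T4 p _ d2
    have i0 : Ind p {0} := by
      have := hDel 4 T4 p _ e1 (by intro j hj; simp [addPart, hj]) 0 t0 (by simp [addPart, t0]) ∅ (by simp) (H9.ind_empty hpt)
      simpa using this
    have i1 : Ind p {1, 0} := by
      apply hDel 4 T4 p _ e2 (by intro j hj; simp [addPart, hj]) 1 t1 (by simp [addPart, t1]) {0} _ i0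
      intro j hj
      rw [Finset.mem_singleton] at hj
      subst hj
      simp [addPart]
    have i2 : Ind p ({1, 0} ∪ {2}) := tor2 d1 _ (by decide) i1
    have i3 : Ind p (({1, 0} ∪ {2}) ∪ {3}) := by
      apply hTor 4 T4 p hp hpk _ f2 {3} _ _ _ ({1, 0} ∪ {2}) (by decide) i2
      · intro j hj; rw [Finset.mem_singleton] at hj; subst hj; rfl
      · intro j hj
        fin_cases j
        · simp [mulPart, T4]
        · simp [mulPart, T4]
        · simp [mulPart, T4]
        · exact absurd (Finset.mem_singleton_self _) hj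
      · intro g hg j hj
        rw [Finset.mem_singleton] at hj
        subst hj
        simp [mulPart, T4, hk2] at hg
        exact hg
    apply hpb
    apply ind_univ_bot
    exact Ind.mono i3 (by decide)
  -- additive part of stabilizing elements
  have stbadd : ∀ g : Fin 3 → ℤ, Stb T4 p (gp γ g) → Dst T4 ![g 0 * a1 + g 2 * a3, g 1 * b2, 0, 0] p := by
    intro g hg
    have h1 := (hJT 4 T4 p _ hg).1
    have h2 : addPart T4 (gp γ g) = ![g 0 * a1 + g 2 * a3, g 1 * b2, 0, 0] := by
      rw [hgp]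
      funext i
      fin_cases i <;> simp [addPart, T4]
    rwa [h2] at h1
  have cz : ∀ (g : ℤ) (c : ℂ), c ≠ 0 → (g : ℂ) * c = 0 → g = 0 := by
    intro g c hc hg
    rcases mul_eq_zero.mp hg with h | h
    · exact_mod_cast h
    · exact absurd h hc
  have cnz : ∀ (g : ℤ) (c : ℂ), c ≠ 0 → g ≠ 0 → (g : ℂ) * c ≠ 0 := by
    intro g c hc hg
    exact mul_ne_zero (by exact_mod_cast hg) hc
  -- coordinates of stabilizing elements
  have s0 : (X 0 : Rg 4) ∈ p → ∀ g, Stb T4 p (gp γ g) → g 0 = 0 ∧ g 2 = 0 := by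
    intro h g hg
    have h1 := stb_add hpt hg t0 h
    rw [hgp] at h1
    exact hα _ _ (by simpa using h1)
  have s1' : (X 1 : Rg 4) ∈ p → ∀ g, Stb T4 p (gp γ g) → g 1 = 0 := by
    intro h g hg
    have h1 := stb_add hpt hg t1 h
    rw [hgp] at h1
    exact cz _ _ hb2 (by simpa using h1)
  have s3' : (X 3 - 1 : Rg 4) ∈ p → ∀ g, Stb T4 p (gp γ g) → (g 0 : ℝ) * s1.re + g 2 * s3.re = 0 := by
    intro h g hg
    have h1 := re_of_exp (stb_tor hpt hg tt3 h)
    rw [hgp] at h1
    simpa using h1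
  have gzero : ∀ g : Fin 3 → ℤ, g 0 = 0 → g 1 = 0 → g 2 = 0 → g = 0 := by
    intro g h0 h1 h2
    funext k
    fin_cases k
    · exact h0
    · exact h1
    · exact h2
  -- derivations in the coordinate directions
  have dA : ∀ g, Stb T4 p (gp γ g) → (g 0 ≠ 0 ∨ g 2 ≠ 0) → g 1 = 0 → ∀ I : Finset (Fin 4), 0 ∉ I → Ind p I → Ind p (insert 0 I) := by
    intro g hg h0 h1 I hI hInd
    refine del _ (stbadd g hg) rfl rfl 0 t0 ?_ I ?_ hInd
    · intro h
      obtain ⟨h2, h3⟩ := hα _ _ (by simpa using h)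
      rcases h0 with h0 | h0
      · exact h0 h2
      · exact h0 h3
    · intro j hj
      fin_cases j
      · exact absurd hj hI
      · simp [h1]
      · rfl
      · rfl
  have dB : ∀ g, Stb T4 p (gp γ g) → g 1 ≠ 0 → g 0 = 0 → g 2 = 0 → ∀ I : Finset (Fin 4), 1 ∉ I → Ind p I → Ind p (insert 1 I) := by
    intro g hg h1 h0 h2 I hI hInd
    refine del _ (stbadd g hg) rfl rfl 1 t1 (by simpa using cnz _ _ hb2 h1) I ?_ hInd
    intro j hj
    fin_cases j
    · simp [h0, h2]
    · exact absurd hj hI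
    · rfl
    · rfl
  have hr : I0.card ≤ 4 := by
    have := Finset.card_le_univ I0
    simpa using this
  -- case analysis on the size of a basis
  obtain hr0 | hr1 | hr2 | hr3 | hr4 : I0.card = 0 ∨ I0.card = 1 ∨ I0.card = 2 ∨ I0.card = 3 ∨ I0.card = 4 := by omega
  · -- r = 0
    have n1 : ∀ i : Fin 4, ¬ Ind p {i} := by
      intro i hi
      have := hle _ hi
      rw [hr0, Finset.card_singleton] at this
      omega
    have hx0 := a0 (n1 0)
    have hx1 := a1' (n1 1)
    refine ⟨∅, Finset.univ, 2, hbas ∅ (H9.ind_empty hpt) (by rw [hr0]; simp), ?_, w01 hx0 hx1, le_rfl, ?_⟩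
    · intro g _ hg
      obtain ⟨e0, e2⟩ := s0 hx0 g hg
      exact gzero g e0 (s1' hx1 g hg) e2
    · rw [ex_sum_compl]; simp
  · -- r = 1
    have n2 : ∀ I : Finset (Fin 4), 2 ≤ I.card → ¬ Ind p I := by
      intro I hI hInd
      have := hle _ hInd
      omega
    by_cases hAB : ¬ Ind p {0} ∧ ¬ Ind p {1}
    · have hx0 := a0 hAB.1
      have hx1 := a1' hAB.2
      have hI02 : I0 ⊆ {2, 3} := by
        intro i hi
        have hs : Ind p {i} := Ind.mono hI0.1 (Finset.singleton_subset_iff.mpr hi)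
        fin_cases i
        · exact absurd hs hAB.1
        · exact absurd hs hAB.2
        · simp
        · simp
      refine ⟨I0, {0, 1}, 2, hI0, ?_, w01 hx0 hx1, le_rfl, ?_⟩
      · intro g hgA hg
        exact gzero g (s0 hx0 g hg).1 (s1' hx1 g hg) (hgA 2 (by decide))
      · rw [ex_sum_compl]
        have h0 : (0 : Fin 4) ∉ I0 := fun h => absurd (hI02 h) (by decide)
        have h1 : (1 : Fin 4) ∉ I0 := fun h => absurd (hI02 h) (by decide)
        have h23 : (2 : Fin 4) ∈ I0 ∨ (3 : Fin 4) ∈ I0 := by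
          obtain ⟨i, hi⟩ := Finset.card_pos.mp (by omega : 0 < I0.card)
          have := hI02 hi
          simp only [Finset.mem_insert, Finset.mem_singleton] at this
          rcases this with h | h
          · left; rwa [h] at hi
          · right; rwa [h] at hi
        have hc : ({0, 1} : Finset (Fin 3)).card = 2 := by decide
        rw [if_neg h0, if_neg h1, hc]
        rcases h23 with h | h
        · rw [if_pos h]; split_ifs <;> omega
        · rw [if_pos h]; split_ifs <;> omega
    · obtain ⟨i, hit, hi⟩ : ∃ i : Fin 4, T4 i = false ∧ Ind p {i} := by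
        by_cases h : Ind p {0}
        · exact ⟨0, t0, h⟩
        · refine ⟨1, t1, ?_⟩
          by_contra h'
          exact hAB ⟨h, h'⟩
      have hi3 : i ≠ 3 := by rintro rfl; exact absurd hit (by decide)
      have hi2 : i ≠ 2 := by rintro rfl; exact absurd hit (by decide)
      have hn3 : ¬ Ind p {i, 3} := n2 _ (by rw [Finset.card_pair hi3])
      have hn2 : ¬ Ind p {i, 2} := n2 _ (by rw [Finset.card_pair hi2])
      have hbi : Bas p {i} := hbas _ hi (by rw [hr1]; simp)
      have hi01 : i = 0 ∨ i = 1 := by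
        fin_cases i
        · left; rfl
        · right; rfl
        · exact absurd hit (by decide)
        · exact absurd hit (by decide)
      have hrhs : ∑ j ∈ ({i} : Finset (Fin 4))ᶜ, ex T4 59 32 j = 123 := by
        rcases hi01 with h | h <;> subst h <;> rw [ex_sum_compl] <;> simp
      by_cases hw : Wt T4 ![1, 0, k1, 0] ![0, 1, 0, k2] p 2
      · rcases hi01 with h | h
        · subst h
          refine ⟨{0}, {1}, 2, hbi, ?_, hw, le_rfl, ?_⟩
          · intro g hgA hg
            have e0 := hgA 0 (by decide)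
            have e2 := hgA 2 (by decide)
            obtain ⟨b, hb, hb'⟩ := hAP 4 T4 p hp hpk 0 2 t0 tt2 hi hn2
            have h3 := re_of_exp (hb' (gp γ g) (by rw [hgp, e0, e2]; simp) hg)
            rw [hgp, e0, e2] at h3
            simp at h3
            refine gzero g e0 ?_ e2
            rcases h3 with h3 | h3
            · exact absurd h3 hb
            · rcases h3 with h3 | h3
              · exact h3
              · exact absurd h3 ht2
          · rw [hrhs]; simp
        · subst h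
          refine ⟨{1}, {2}, 2, hbi, ?_, hw, le_rfl, ?_⟩
          · intro g hgA hg
            have e0 := hgA 0 (by decide)
            have e1 := hgA 1 (by decide)
            obtain ⟨b, hb, hb'⟩ := hAP 4 T4 p hp hpk 1 3 t1 tt3 hi hn3
            have h3 := re_of_exp (hb' (gp γ g) (by rw [hgp, e0, e1]; simp) hg)
            rw [hgp, e0, e1] at h3
            simp at h3
            refine gzero g e0 e1 ?_
            rcases h3 with h3 | h3
            · exact absurd h3 hb
            · rcases h3 with h3 | h3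
              · exact h3
              · exact absurd h3 hs3
          · rw [hrhs]; simp
      · refine ⟨{i}, Finset.univ, 1, hbi, ?_, wt1, by omega, ?_⟩
        · intro g _ hg
          have hd := stbadd g hg
          by_contra hne
          have hj : ∃ j : Fin 4, T4 j = false ∧ (![g 0 * a1 + g 2 * a3, g 1 * b2, 0, 0] : Fin 4 → ℂ) j ≠ 0 := by
            by_cases h : (g 0 : ℂ) * a1 + g 2 * a3 = 0
            · refine ⟨1, t1, ?_⟩
              obtain ⟨h0, h2⟩ := hα _ _ h
              have h1 : g 1 ≠ 0 := fun h1 => hne (gzero g h0 h1 h2)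
              simpa using cnz _ _ hb2 h1
            · refine ⟨0, t0, ?_⟩
              simpa using h
          obtain ⟨j, hjt, hj⟩ := hj
          have x2 : ¬ Ind p {2} := by
            intro h
            have := del _ hd rfl rfl j hjt hj {2} (by intro l hl; rw [Finset.mem_singleton] at hl; subst hl; rfl) h
            exact n2 _ (by
              have hj2 : j ≠ 2 := by rintro rfl; exact absurd hjt (by decide)
              rw [Finset.card_pair hj2]) this
          have x3 : ¬ Ind p {3} := by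
            intro h
            have := del _ hd rfl rfl j hjt hj {3} (by intro l hl; rw [Finset.mem_singleton] at hl; subst hl; rfl) h
            exact n2 _ (by
              have hj2 : j ≠ 3 := by rintro rfl; exact absurd hjt (by decide)
              rw [Finset.card_pair hj2]) this
          exact hw (w23 (a2 x2) (a3' x3))
        · rw [hrhs]; simp
  · -- r = 2
    have n3 : ∀ I : Finset (Fin 4), 3 ≤ I.card → ¬ Ind p I := by
      intro I hI hInd
      have := hle _ hInd
      omega
    by_cases hw : Wt T4 ![1, 0, k1, 0] ![0, 1, 0, k2] p 2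
    · by_cases hAB : ¬ Ind p {0} ∧ ¬ Ind p {1}
      · have hx0 := a0 hAB.1
        have hI02 : I0 ⊆ {2, 3} := by
          intro i hi
          have hs : Ind p {i} := Ind.mono hI0.1 (Finset.singleton_subset_iff.mpr hi)
          fin_cases i
          · exact absurd hs hAB.1
          · exact absurd hs hAB.2
          · simp
          · simp
        have hI0e : I0 = {2, 3} := Finset.eq_of_subset_of_card_le hI02 (by rw [hr2]; decide)
        refine ⟨I0, {0}, 2, hI0, ?_, hw, le_rfl, ?_⟩
        · intro g hgA hg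
          exact gzero g (s0 hx0 g hg).1 (hgA 1 (by decide)) (hgA 2 (by decide))
        · rw [hI0e, ex_sum_compl]; simp
      · obtain ⟨i, hit, hi⟩ : ∃ i : Fin 4, T4 i = false ∧ Ind p {i} := by
          by_cases h : Ind p {0}
          · exact ⟨0, t0, h⟩
          · refine ⟨1, t1, ?_⟩
            by_contra h'
            exact hAB ⟨h, h'⟩
        obtain ⟨J, hiJ, hJ, hJc⟩ := hext _ hi
        rw [hr2] at hJc
        refine ⟨J, ∅, 2, hJ, free_empty, hw, le_rfl, ?_⟩
        have hiJ' : i ∈ J := hiJ (Finset.mem_singleton_self i)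
        clear_value γ
        have hfin : ∀ (i : Fin 4) (J : Finset (Fin 4)), T4 i = false → i ∈ J → J.card = 2 → ∑ j ∈ Jᶜ, ex T4 59 32 j ≤ 91 := by
          decide +kernel
        have := hfin i J hit hiJ' hJc
        simp only [Finset.card_empty]
        omega
    · by_cases h01 : Ind p {0, 1}
      · have hb01 : Bas p {0, 1} := hbas _ h01 (by rw [hr2]; decide)
        have hrhs : ∑ j ∈ ({0, 1} : Finset (Fin 4))ᶜ, ex T4 59 32 j = 64 := by rw [ex_sum_compl]; simp
        by_cases hF0 : Free T4 γ p {0}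
        · exact ⟨{0, 1}, {0}, 1, hb01, hF0, wt1, by omega, by rw [hrhs]; simp⟩
        by_cases hF1 : Free T4 γ p {1}
        · exact ⟨{0, 1}, {1}, 1, hb01, hF1, wt1, by omega, by rw [hrhs]; simp⟩
        exfalso
        obtain ⟨g, hgA, hg, hg0⟩ := not_free hF0
        obtain ⟨g', hgA', hg', hg0'⟩ := not_free hF1
        have e0 : g 0 ≠ 0 := fun h => hg0 (gzero g h (hgA 1 (by decide)) (hgA 2 (by decide)))
        have e1 : g' 1 ≠ 0 := fun h => hg0' (gzero g' (hgA' 0 (by decide)) h (hgA' 2 (by decide)))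
        have g1 : g 1 = 0 := hgA 1 (by decide)
        have g0' : g' 0 = 0 := hgA' 0 (by decide)
        have g2' : g' 2 = 0 := hgA' 2 (by decide)
        have step : ∀ l : Fin 4, l = 2 ∨ l = 3 → ¬ Ind p {l} := by
          intro l hl h
          have h1 := dA g hg (Or.inl e0) g1 {l} (by rcases hl with rfl | rfl <;> decide) h
          have h2 := dB g' hg' e1 g0' g2' (insert 0 {l}) (by rcases hl with rfl | rfl <;> decide) h1
          refine n3 _ ?_ h2
          rcases hl with rfl | rfl <;> decide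
        exact hw (w23 (a2 (step 2 (Or.inl rfl))) (a3' (step 3 (Or.inr rfl))))
      · -- ¬ Ind {0,1}
        obtain ⟨i, hit, hi⟩ : ∃ i : Fin 4, T4 i = false ∧ Ind p {i} := by
          by_cases h : Ind p {0}
          · exact ⟨0, t0, h⟩
          · refine ⟨1, t1, ?_⟩
            by_contra h'
            exact hw (w01 (a0 h) (a1' h'))
        obtain ⟨J, hiJ, hJ, hJc⟩ := hext _ hi
        rw [hr2] at hJc
        have hiJ' : i ∈ J := hiJ (Finset.mem_singleton_self i)
        have hnJ : ¬ ({0, 1} : Finset (Fin 4)) ⊆ J := fun h => h01 (Ind.mono hJ.1 h)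
        have hfin : ∀ (i : Fin 4) (J : Finset (Fin 4)), T4 i = false → i ∈ J → J.card = 2 → ¬ ({0, 1} : Finset (Fin 4)) ⊆ J →
            ∑ j ∈ Jᶜ, ex T4 59 32 j = 91 := by
          decide +kernel
        have hrhs := hfin i J hit hiJ' hJc hnJ
        by_cases hF : ∃ Ax : Finset (Fin 3), Ax.card = 2 ∧ Free T4 γ p Ax
        · obtain ⟨Ax, hAc, hF⟩ := hF
          exact ⟨J, Ax, 1, hJ, hF, wt1, by omega, by rw [hrhs, hAc]; simp⟩
        exfalso
        have hF02 : ¬ Free T4 γ p {0, 2} := fun h => hF ⟨_, by decide, h⟩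
        have hF12 : ¬ Free T4 γ p {1, 2} := fun h => hF ⟨_, by decide, h⟩
        obtain ⟨u, huA, hu, hu0⟩ := not_free hF02
        have u1 : u 1 = 0 := huA 1 (by decide)
        have u02 : u 0 ≠ 0 ∨ u 2 ≠ 0 := by
          by_contra hcon
          rw [not_or, not_not, not_not] at hcon
          exact hu0 (gzero u hcon.1 u1 hcon.2)
        have hB : ¬ Ind p {1} := by
          intro h
          exact h01 (dA u hu u02 u1 {1} (by decide) h)
        have hx1 := a1' hB
        obtain ⟨u', huA', hu', hu0'⟩ := not_free hF12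
        have u0' : u' 0 = 0 := huA' 0 (by decide)
        have u1' : u' 1 = 0 := s1' hx1 u' hu'
        have u2' : u' 2 ≠ 0 := fun h => hu0' (gzero u' u0' u1' h)
        have hD : Dst T4 ![1, 0, k1, 0] p := by
          intro z hz
          by_contra hcon
          apply hw
          refine ⟨X 1, hx1, z, hz, ?_⟩
          rw [dr_X_add t1, dr_X_add t1]
          simpa using hcon
        have h3 : ¬ Ind p {3} := by
          intro h
          have h1 := dA u hu u02 u1 {3} (by decide) h
          have h2 := tor2 hD _ (by decide) h1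
          exact n3 _ (by decide) h2
        have e1 := s3' (a3' h3) u' hu'
        rw [u0'] at e1
        rcases mul_eq_zero.mp (by simpa using e1 : (u' 2 : ℝ) * s3.re = 0) with h | h
        · exact u2' (by exact_mod_cast h)
        · exact hs3 h
  · -- r = 3
    by_cases h01 : Ind p {0, 1}
    · obtain ⟨J, hJ1, hJ, hJc⟩ := hext _ h01
      rw [hr3] at hJc
      refine ⟨J, ∅, 1, hJ, free_empty, wt1, by omega, ?_⟩
      have hfin : ∀ J : Finset (Fin 4), ({0, 1} : Finset (Fin 4)) ⊆ J → J.card = 3 → ∑ j ∈ Jᶜ, ex T4 59 32 j = 32 := by decide +kernel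
      rw [hfin J hJ1 hJc]
      simp
    · have hnJ : ¬ ({0, 1} : Finset (Fin 4)) ⊆ I0 := fun h => h01 (Ind.mono hI0.1 h)
      have hfin : ∀ J : Finset (Fin 4), ¬ ({0, 1} : Finset (Fin 4)) ⊆ J → J.card = 3 → ∑ j ∈ Jᶜ, ex T4 59 32 j = 59 := by decide +kernel
      have hrhs := hfin I0 hnJ hr3
      by_cases hF0 : Free T4 γ p {0}
      · exact ⟨I0, {0}, 1, hI0, hF0, wt1, by omega, by rw [hrhs]; simp⟩
      by_cases hF1 : Free T4 γ p {1}
      · exact ⟨I0, {1}, 1, hI0, hF1, wt1, by omega, by rw [hrhs]; simp⟩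
      exfalso
      obtain ⟨g, hgA, hg, hg0⟩ := not_free hF0
      obtain ⟨g', hgA', hg', hg0'⟩ := not_free hF1
      have e0 : g 0 ≠ 0 := fun h => hg0 (gzero g h (hgA 1 (by decide)) (hgA 2 (by decide)))
      have e1 : g' 1 ≠ 0 := fun h => hg0' (gzero g' (hgA' 0 (by decide)) h (hgA' 2 (by decide)))
      have g0' : g' 0 = 0 := hgA' 0 (by decide)
      have g2' : g' 2 = 0 := hgA' 2 (by decide)
      have h2 := dB g' hg' e1 g0' g2' ∅ (by simp) (H9.ind_empty hpt)
      have h1 := dA g hg (Or.inl e0) (hgA 1 (by decide)) (insert 1 ∅) (by decide) h2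
      exact h01 (Ind.mono h1 (by decide))
  · -- r = 4
    exfalso
    have : I0 = Finset.univ := Finset.eq_univ_of_card _ (by rw [hr4]; simp)
    rw [this] at hI0
    exact hpb (ind_univ_bot hI0.1)

end Pool.Agent.Helper38.PiE
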