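import Pool.Agent.Helper90.Trs.Stab

/-!
# Baker's theorem for one logarithm with a nonzero constant term

The shape condition on `G_a × G_m^2` for the point `(1, lam, b0 + b1 lam)` with `b0 ≠ 0`; adapted
from helper90's `shD1`.
-/

set_option autoImplicit false

namespace Pool.Agent.Helper38.PiE

open MvPolynomial _root_.Trs Pool.Agent.Helper90.Trs

/-- the shape condition on `G_a × G_m^2` for a nonzero constant term -/
theorem shD1' (hJT : S_JorT) (hJD : S_JorD) (hA : S_Alg1) (hDel : S_Del) (hTor : S_Tor)
    (lam b0 b1 : ℂ) (hb1 : ∀ a b : ℤ, (a : ℂ) + b * b1 = 0 → a = 0 ∧ b = 0) (hb0 : b0 ≠ 0) :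
    Shape (m := 1) ![false, true, true] ![![1, lam, b0 + b1 * lam]]
      ![1, 0, b0] ![0, 1, b1] 59 32 26 58 := by
  intro p hpr hbot hle
  have ht := ne_top hle
  have i12 : Dst ![false, true, true] ![0, 1, b1] p → ∀ I : Finset (Fin 3), Disjoint I {1, 2} →
      Ind p I → Ind p (I ∪ {1, 2}) := fun h I hI hInd =>
    tor_dst hJD hTor hpr hle h {1, 2} (by intro j hj; fin_cases j <;> simp_all)
      (by intro j hj; fin_cases j <;> simp_all)
      (fun g hg => by
        rw [Finset.sum_pair (by decide)] at hg
        have h1 := hb1 (g 1) (g 2) (by simpa using hg)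
        intro j hj
        simp only [Finset.mem_insert, Finset.mem_singleton] at hj
        rcases hj with rfl | rfl
        · exact h1.1
        · exact h1.2) I hI hInd
  have hw : Wt ![false, true, true] ![1, 0, b0] ![0, 1, b1] p 1 := by
    rcases wt_one_or (tor := ![false, true, true]) (p := p) (w1 := ![1, 0, b0])
      (w2 := ![0, 1, b1]) with h | ⟨h1, h2⟩
    · exact h
    · exfalso
      have i1 := del_dst hJD hDel h1 (i := 0) rfl (by simp) ∅ (by simp) (ind_empty ht)
      have i2 := i12 h2 _ (by decide +kernel) i1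
      exact ind_univ hbot (by
        have : (Finset.univ : Finset (Fin 3)) = insert 0 ∅ ∪ {1, 2} := by decide +kernel
        rwa [this])
  by_cases h0 : Ind p {0}
  · by_cases h1 : Ind p {0, 1} ∨ Ind p {0, 2}
    · obtain ⟨I, hI, hI2⟩ : ∃ I : Finset (Fin 3), Ind p I ∧ (I = {0, 1} ∨ I = {0, 2}) := by
        rcases h1 with h | h
        · exact ⟨_, h, Or.inl rfl⟩
        · exact ⟨_, h, Or.inr rfl⟩
      obtain ⟨J, hJ, hb⟩ := exists_bas I hI
      refine ⟨J, ∅, 1, hb, free_empty _, hw, by norm_num, ?_⟩
      have key : ∀ I J : Finset (Fin 3), (I = {0, 1} ∨ I = {0, 2}) → I ⊆ J →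
          ∑ i ∈ Jᶜ, ex ![false, true, true] 59 32 i
            < 26 * (∅ : Finset (Fin 1)).card + 58 * 1 := by
        decide +kernel
      exact key I J hI2 hJ
    · rw [not_or] at h1
      obtain ⟨J, hJ, hb⟩ := exists_bas {0} h0
      by_cases h2 : Wt ![false, true, true] ![1, 0, b0] ![0, 1, b1] p 2
      · refine ⟨J, ∅, 2, hb, free_empty _, h2, by norm_num, ?_⟩
        have key : ∀ J : Finset (Fin 3), {0} ⊆ J →
            ∑ i ∈ Jᶜ, ex ![false, true, true] 59 32 i
              < 26 * (∅ : Finset (Fin 1)).card + 58 * 2 := by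
          decide +kernel
        exact key J hJ
      · refine ⟨J, {0}, 1, hb, fun g _ hg => ?_, hw, by norm_num, ?_⟩
        · by_contra hg0
          have e0 : gp ![![(1 : ℂ), lam, b0 + b1 * lam]] g 0 = g 0 := by
            rw [gp_apply]; simp
          have hg00 : g 0 ≠ 0 := by
            intro h
            apply hg0
            funext k
            fin_cases k
            exact h
          have hd : ∀ I : Finset (Fin 3), (∀ j ∈ I, (![false, true, true] : Fin 3 → Bool) j = true) →
              Ind p I → Ind p (insert 0 I) := fun I hI hInd =>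
            del_stb hJT hDel hg (i := 0) rfl (by rw [e0]; exact_mod_cast hg00) I
              (fun j hj => Or.inl (hI j hj)) hInd
          have x1 : (X 1 - 1 : Rg 3) ∈ p := by
            refine X_sub_mem hA hpr hle (i := 1) rfl fun h => h1.1 ?_
            exact hd {1} (by simp) h
          have x2 : (X 2 - 1 : Rg 3) ∈ p := by
            refine X_sub_mem hA hpr hle (i := 2) rfl fun h => h1.2 ?_
            exact hd {2} (by simp) h
          exact h2 (wt_two_mm hpr hle (i := 1) (j := 2) rfl rfl x1 x2 (by simpa using hb0))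
        · have key : ∀ J : Finset (Fin 3), {0} ⊆ J →
            ∑ i ∈ Jᶜ, ex ![false, true, true] 59 32 i
              < 26 * ({0} : Finset (Fin 1)).card + 58 * 1 := by
            decide +kernel
          exact key J hJ
  · have h1 := X_mem hA hpr hle (i := 0) rfl h0
    have hfree : Free ![false, true, true] ![![(1 : ℂ), lam, b0 + b1 * lam]] p {0} := by
      intro g _ hg
      have h2 := stb_add hle hg (i := 0) rfl h1
      rw [gp_apply] at h2
      simp at h2
      funext k
      fin_cases k
      exact h2
    by_cases h2 : Wt ![false, true, true] ![1, 0, b0] ![0, 1, b1] p 2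
    · obtain ⟨J, hJ, hb⟩ := exists_bas ∅ (ind_empty ht)
      refine ⟨J, {0}, 2, hb, hfree, h2, by norm_num, ?_⟩
      have key : ∀ J : Finset (Fin 3),
          ∑ i ∈ Jᶜ, ex ![false, true, true] 59 32 i
            < 26 * ({0} : Finset (Fin 1)).card + 58 * 2 := by
        decide +kernel
      exact key J
    · have h3 : Dst ![false, true, true] ![0, 1, b1] p := by
        by_contra h3
        exact h2 (wt_two_add hpr hle (i := 0) rfl h1 (by simp) (by simp) h3)
      obtain ⟨J, hJ, hb⟩ := exists_bas _ (i12 h3 ∅ (by decide +kernel) (ind_empty ht))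
      refine ⟨J, {0}, 1, hb, hfree, hw, by norm_num, ?_⟩
      have key : ∀ J : Finset (Fin 3), ∅ ∪ {1, 2} ⊆ J →
          ∑ i ∈ Jᶜ, ex ![false, true, true] 59 32 i
            < 26 * ({0} : Finset (Fin 1)).card + 58 * 1 := by
        decide +kernel
      exact key J hJ

/-- **Baker's theorem for one logarithm with a nonzero constant term**: for algebraic `b0 ≠ 0`,
irrational algebraic `b1` and `exp lam` algebraic, `exp (b0 + b1 lam)` is transcendental. -/
theorem baker_of_main (hM : S_Main) (hJT : S_JorT) (hJD : S_JorD) (hA : S_Alg1) (hDel : S_Del)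
    (hTor : S_Tor) (lam b0 b1 : ℂ) (hb0 : IsAlgebraic ℚ b0) (hb1 : IsAlgebraic ℚ b1)
    (hlam : IsAlgebraic ℚ (Complex.exp lam)) (hb00 : b0 ≠ 0)
    (hirr : ∀ a b : ℤ, (a : ℂ) + b * b1 = 0 → a = 0 ∧ b = 0) :
    ¬ IsAlgebraic ℚ (Complex.exp (b0 + b1 * lam)) := by
  intro he
  refine hM 3 1 ![false, true, true] ![![1, lam, b0 + b1 * lam]] ![1, 0, b0] ![0, 1, b1]
    ![b0, b1, -1] ?_ ?_ ?_ ?_ ?_ ?_ ?_ 60 59 32 26 58
    (by norm_num) (by norm_num) (by norm_num) (by decide +kernel)
    (shD1' hJT hJD hA hDel hTor lam b0 b1 hirr hb00)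
  · intro h
    have h1 := congrFun h 2
    simp at h1
  · intro k
    fin_cases k
    simp [Fin.sum_univ_three]
  · simp [Fin.sum_univ_three]
  · simp [Fin.sum_univ_three]
  · intro k i
    fin_cases k
    fin_cases i
    · simpa using isAlgebraic_one
    · simpa using hlam
    · simpa using he
  · intro i
    fin_cases i
    · simpa using isAlgebraic_one
    · simpa using isAlgebraic_zero
    · simpa using hb0
  · intro i
    fin_cases i
    · simpa using isAlgebraic_zero
    · simpa using isAlgebraic_one
    · simpa using hb1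

end Pool.Agent.Helper38.PiE
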