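import Pool.Agent.Helper17.Trs2.Defs
import Pool.Agent.Helper40.Trs.DataC
import Pool.Agent.Helper38.PiE.ShC2
import Pool.Agent.Helper38.PiE.ShD3

/-!
# Project `trs2`: the instances `245`, `256` and the two instances of Baker's theorem

All four are obtained from the two-derivation engine of the project `trs`.
-/

set_option autoImplicit false

namespace Pool.Agent.Helper38.PiE

open Complex _root_.Trs _root_.Trs.H40

theorem exp_pie {h : IsAlgebraic ℚ (nine 2)} :
    IsAlgebraic ℚ (exp ((Real.log Real.pi : ℂ) + 1)) := by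
  have h2 := pie (h := h)
  have h3 : exp ((Real.log Real.pi : ℂ) + 1) = (Real.pi : ℂ) * ((Real.exp 1 : ℝ) : ℂ) := by
    rw [Complex.exp_add, ← Complex.ofReal_exp, Real.exp_log Real.pi_pos, Complex.ofReal_exp,
      Complex.ofReal_one]
  rw [h3]
  exact h2

theorem exp_I_pi_alg : IsAlgebraic ℚ (exp (I * (Real.pi : ℂ))) := by
  rw [mul_comm]
  exact exp_pi_I_alg

/-- **256**: one of `πe, e^e, π^e` is transcendental. -/
theorem st_256 (hM : S_Main) (hC : S_ShC) (hL : S_HL) : Trs2.S_256 := by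
  by_contra hcon
  have h := not_some hcon
  have h2 := pie (h := h 2 (by simp))
  have h5 := ee (h := h 5 (by simp))
  have h6 := pie' (h := h 6 (by simp))
  have h2' := exp_pie (h := h 2 (by simp))
  have hL1 : Real.log Real.pi + 1 ≠ 0 := by
    have := logpi_pos
    positivity
  have h56 : IsAlgebraic ℚ (exp (((Real.exp 1 : ℝ) : ℂ) * ((Real.log Real.pi : ℂ) + 1))) := by
    have e1 : ((Real.exp 1 : ℝ) : ℂ) * ((Real.log Real.pi : ℂ) + 1) =
        (Real.log Real.pi : ℂ) * ((Real.exp 1 : ℝ) : ℂ) + ((Real.exp 1 : ℝ) : ℂ) := by ring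
    rw [e1, Complex.exp_add]
    exact h6.mul h5
  have eL : ((Real.log Real.pi : ℂ) + 1).re = Real.log Real.pi + 1 := by simp
  have eEL : (((Real.exp 1 : ℝ) : ℂ) * ((Real.log Real.pi : ℂ) + 1)).re =
      Real.exp 1 * (Real.log Real.pi + 1) := by
    have : ((Real.exp 1 : ℝ) : ℂ) * ((Real.log Real.pi : ℂ) + 1) =
        ((Real.exp 1 * (Real.log Real.pi + 1) : ℝ) : ℂ) := by push_cast; ring
    rw [this, Complex.ofReal_re]
  refine run hM hC (-1) (-1) 1 (I * (Real.pi * ((Real.exp 1 : ℝ) : ℂ)))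
    ((Real.exp 1 : ℝ) : ℂ) (I * (Real.pi : ℂ)) ((Real.log Real.pi : ℂ) + 1)
    (((Real.exp 1 : ℝ) : ℂ) * ((Real.log Real.pi : ℂ) + 1))
    (-((Real.exp 1 : ℝ) : ℂ)) 1 (-((Real.exp 1 : ℝ) : ℂ)) 1
    (neg_ne_zero.2 e_ne) ?_ ?_ ?_ ?_ ?_ isAlgebraic_one (alg_I.mul h2) alg_neg_one alg_neg_one
    h5 exp_I_pi_alg h2' h56 (by simp) (by simp) one_ne_zero
    (mul_ne_zero I_ne_zero (mul_ne_zero pi_ne e_ne)) ?_ (Or.inr ?_)
  · ring
  · ring
  · ring
  · ring
  · ring
  · rw [eEL]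
    exact mul_ne_zero (Real.exp_pos 1).ne' hL1
  · intro a b hab
    rw [eL, eEL] at hab
    have h3 : (Real.log Real.pi + 1) * ((a : ℝ) + b * Real.exp 1) = 0 := by
      linear_combination hab
    have h4 := (mul_eq_zero.1 h3).resolve_left hL1
    have hb : b = 0 := by
      by_contra hb
      apply e_trans hL
      have hb' : (b : ℝ) ≠ 0 := by exact_mod_cast hb
      have h5 : Real.exp 1 = ((-(a : ℚ) / b : ℚ) : ℝ) := by
        push_cast
        field_simp
        linarith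
      rw [h5]
      have h6 : (((-(a : ℚ) / b : ℚ) : ℝ) : ℂ) = algebraMap ℚ ℂ (-(a : ℚ) / b) := by
        push_cast
        simp
      rw [h6]
      exact isAlgebraic_algebraMap _
    subst hb
    refine ⟨?_, rfl⟩
    simpa using h4

/-- **245**: one of `πe, π^π, e^e` is transcendental. -/
theorem st_245 (hM : S_Main) (hJT : S_JorT) (hJD : S_JorD) (hA1 : S_Alg1) (hDel : S_Del)
    (hTor : S_Tor) (hAP : S_AddPair) (hTd : S_Tdim) : Trs2.S_245 := by
  by_contra hcon
  have h := not_some hcon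
  have h2 := pie (h := h 2 (by simp))
  have h4 := pipi (h := h 4 (by simp))
  have h5 := ee (h := h 5 (by simp))
  have h2' := exp_pie (h := h 2 (by simp))
  refine hM 4 3 ![false, false, true, true]
    ![![I, 0, 0, I * (Real.pi : ℂ)],
      ![0, (Real.pi : ℂ) * ((Real.exp 1 : ℝ) : ℂ), ((Real.exp 1 : ℝ) : ℂ), 0],
      ![-1, 0, (Real.log Real.pi : ℂ) + 1, (Real.log Real.pi : ℂ) * Real.pi]]
    ![1, 0, -1, 0] ![0, 1, 0, -1]
    ![-(Real.pi : ℂ), 1, -(Real.pi : ℂ), 1] ?_ ?_ ?_ ?_ ?_ ?_ ?_ 60 59 32 26 58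
    (by norm_num) (by norm_num) (by norm_num) ?_
    (shC2 hJT hJD hA1 hDel hTor hAP hTd (-1) (-1) I
      ((Real.pi : ℂ) * ((Real.exp 1 : ℝ) : ℂ)) (I * (Real.pi : ℂ)) ((Real.exp 1 : ℝ) : ℂ) (-1)
      ((Real.log Real.pi : ℂ) + 1) ((Real.log Real.pi : ℂ) * Real.pi) (by simp) (by simp)
      ?_ (mul_ne_zero pi_ne e_ne) ?_ ?_)
  · intro h
    have := congrFun h 1
    simp at this
  · intro k
    fin_cases k
    · simp [Fin.sum_univ_four]; ring
    · simp [Fin.sum_univ_four]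
    · simp [Fin.sum_univ_four]; ring
  · simp [Fin.sum_univ_four]
  · simp [Fin.sum_univ_four]
  · intro k i
    have hi := alg_I
    have hpi := exp_I_pi_alg
    fin_cases k <;> fin_cases i
    · simpa using hi
    · simpa using isAlgebraic_zero
    · simpa using isAlgebraic_one
    · simpa using hpi
    · simpa using isAlgebraic_zero
    · simpa using h2
    · simpa using h5
    · simpa using isAlgebraic_one
    · simpa using alg_neg_one
    · simpa using isAlgebraic_zero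
    · simpa using h2'
    · simpa using h4
  · intro i
    fin_cases i <;> simp [isAlgebraic_zero, isAlgebraic_one, alg_neg_one]
  · intro i
    fin_cases i <;> simp [isAlgebraic_zero, isAlgebraic_one, alg_neg_one]
  · simp [ex, Fin.sum_univ_four]
  · intro g k hgk
    have h1 := congrArg Complex.im hgk
    have h3 := congrArg Complex.re hgk
    simp at h1 h3
    exact ⟨h1, h3⟩
  · rw [Complex.ofReal_re]
    exact (Real.exp_pos 1).ne'
  · have e1 : ((Real.log Real.pi : ℂ) * Real.pi).re = Real.log Real.pi * Real.pi := by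
      rw [← Complex.ofReal_mul, Complex.ofReal_re]
    rw [e1]
    exact mul_ne_zero logpi_pos.ne' Real.pi_ne_zero

theorem sqrt2_irr (a b : ℤ) (h : (a : ℂ) + b * ((Real.sqrt 2 : ℝ) : ℂ) = 0) :
    a = 0 ∧ b = 0 := by
  have h1 : (a : ℝ) + b * Real.sqrt 2 = 0 := by exact_mod_cast h
  have hb : b = 0 := by
    by_contra hb
    have hb' : (b : ℝ) ≠ 0 := by exact_mod_cast hb
    apply irrational_sqrt_two
    refine ⟨-(a : ℚ) / b, ?_⟩
    push_cast
    field_simp
    linarith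
  subst hb
  refine ⟨?_, rfl⟩
  simpa using h1

/-- **27**: one of `πe, π^√2` is transcendental. -/
theorem st_27 (hM : S_Main) (hJT : S_JorT) (hJD : S_JorD) (hA1 : S_Alg1) (hDel : S_Del)
    (hTor : S_Tor) : Trs2.S_27 := by
  by_contra hcon
  have h := not_some hcon
  have h2' := exp_pie (h := h 2 (by simp))
  have h7 := pis (h := h 7 (by simp))
  refine baker_of_main hM hJT hJD hA1 hDel hTor ((Real.log Real.pi : ℂ) + 1)
    (-((Real.sqrt 2 : ℝ) : ℂ)) ((Real.sqrt 2 : ℝ) : ℂ) alg_sqrt2.neg alg_sqrt2 h2'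
    (neg_ne_zero.2 sqrt2_ne) sqrt2_irr ?_
  have e1 : -((Real.sqrt 2 : ℝ) : ℂ) + ((Real.sqrt 2 : ℝ) : ℂ) * ((Real.log Real.pi : ℂ) + 1) =
      (Real.log Real.pi : ℂ) * ((Real.sqrt 2 : ℝ) : ℂ) := by ring
  rw [e1]
  exact h7

/-- **37**: one of `π/e, π^√2` is transcendental. -/
theorem st_37 (hM : S_Main) (hJT : S_JorT) (hJD : S_JorD) (hA1 : S_Alg1) (hDel : S_Del)
    (hTor : S_Tor) : Trs2.S_37 := by
  by_contra hcon
  have h := not_some hcon
  have h7 := pis (h := h 7 (by simp))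
  have h3 : IsAlgebraic ℚ (exp ((Real.log Real.pi : ℂ) - 1)) := by
    have h3 := h 3 (by simp)
    have h31 : nine 3 = Real.pi / Real.exp 1 := by simp [nine]
    rw [h31] at h3
    have h4 := alg_ofReal h3
    have h5 : exp ((Real.log Real.pi : ℂ) - 1) = ((Real.pi / Real.exp 1 : ℝ) : ℂ) := by
      rw [Complex.exp_sub, ← Complex.ofReal_exp, Real.exp_log Real.pi_pos, Complex.ofReal_div,
        Complex.ofReal_exp, Complex.ofReal_one]
    rw [h5]
    exact h4
  refine baker_of_main hM hJT hJD hA1 hDel hTor ((Real.log Real.pi : ℂ) - 1)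
    ((Real.sqrt 2 : ℝ) : ℂ) ((Real.sqrt 2 : ℝ) : ℂ) alg_sqrt2 alg_sqrt2 h3
    sqrt2_ne sqrt2_irr ?_
  have e1 : ((Real.sqrt 2 : ℝ) : ℂ) + ((Real.sqrt 2 : ℝ) : ℂ) * ((Real.log Real.pi : ℂ) - 1) =
      (Real.log Real.pi : ℂ) * ((Real.sqrt 2 : ℝ) : ℂ) := by ring
  rw [e1]
  exact h7

end Pool.Agent.Helper38.PiE
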