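import Pool.Agent.Helper17.Trs.All
import Pool.Agent.Helper38.PiE.Data

/-!
# Project `trs2`: the instances `245`, `256`, `27`, `37` without hypotheses
-/

namespace Pool.Agent.Helper38.PiE

open _root_.Trs

theorem s245 : Trs2.S_245 := st_245 sMain H79.jorT H79.jorD alg1 del tor' addPair tdim
theorem s256 : Trs2.S_256 := st_256 sMain sShC sHL
theorem s27 : Trs2.S_27 := st_27 sMain H79.jorT H79.jorD alg1 del tor'
theorem s37 : Trs2.S_37 := st_37 sMain H79.jorT H79.jorD alg1 del tor'

end Pool.Agent.Helper38.PiE
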